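import Pool.Agent.H925R.Szpiro.Pairs

/-!
Semistable elliptic curves over `ℚ` with full rational 2-torsion.
-/

set_option autoImplicit false

namespace Pool.Agent.H925R.Szpiro

open Finset Pool.Agent.H328R2.ABC

/-- the product of the distinct primes dividing `Δ(W)` -/
def cond (W : WeierstrassCurve ℤ) : ℕ := ∏ p ∈ W.Δ.natAbs.primeFactors, p

/-- `4x³ + b₂x² + 2b₄x + b₆` has three rational roots (with multiplicity) -/
def Full (W : WeierstrassCurve ℤ) : Prop :=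
  ∃ r₁ r₂ r₃ : ℚ, ∀ x : ℚ,
    4 * x ^ 3 + W.b₂ * x ^ 2 + 2 * W.b₄ * x + W.b₆ = 4 * (x - r₁) * (x - r₂) * (x - r₃)

theorem int_root (b c d : ℤ) (r : ℚ) (h : r ^ 3 + b * r ^ 2 + c * r + d = 0) : ∃ z : ℤ, (z : ℚ) = r := by
  have hm : (Polynomial.X ^ 3 + Polynomial.C b * Polynomial.X ^ 2 + Polynomial.C c * Polynomial.X
      + Polynomial.C d : Polynomial ℤ).Monic := by
    monicity!
  have := isInteger_of_is_root_of_monic hm (r := r) (by simpa using h)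
  obtain ⟨z, hz⟩ := this
  exact ⟨z, by simpa using hz⟩

theorem full_int (W : WeierstrassCurve ℤ) (h : Full W) :
    ∃ e₁ e₂ e₃ : ℤ, W.b₂ = -(e₁ + e₂ + e₃) ∧ 8 * W.b₄ = e₁ * e₂ + e₁ * e₃ + e₂ * e₃ ∧
      16 * W.b₆ = -(e₁ * e₂ * e₃) := by
  obtain ⟨r₁, r₂, r₃, hr⟩ := h
  have h0 := hr 0
  have h1 := hr 1
  have h2 := hr (-1)
  have c0 : (W.b₆ : ℚ) = -4 * r₁ * r₂ * r₃ := by linear_combination h0
  have c2 : (W.b₂ : ℚ) = -4 * (r₁ + r₂ + r₃) := by linear_combination (h1 + h2) / 2 - h0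
  have c1 : (W.b₄ : ℚ) = 2 * (r₁ * r₂ + r₁ * r₃ + r₂ * r₃) := by
    linear_combination (h1 - h2) / 4
  have key : ∀ r : ℚ, (r = r₁ ∨ r = r₂ ∨ r = r₃) → ∃ z : ℤ, (z : ℚ) = 4 * r := by
    intro r hh
    refine int_root W.b₂ (8 * W.b₄) (16 * W.b₆) (4 * r) ?_
    push_cast
    rw [c0, c1, c2]
    rcases hh with rfl | rfl | rfl <;> ring
  obtain ⟨e₁, he₁⟩ := key r₁ (by simp)
  obtain ⟨e₂, he₂⟩ := key r₂ (by simp)
  obtain ⟨e₃, he₃⟩ := key r₃ (by simp)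
  refine ⟨e₁, e₂, e₃, ?_, ?_, ?_⟩
  · have : (W.b₂ : ℚ) = ((-(e₁ + e₂ + e₃) : ℤ) : ℚ) := by
      push_cast; rw [he₁, he₂, he₃, c2]; ring
    exact_mod_cast this
  · have : ((8 * W.b₄ : ℤ) : ℚ) = ((e₁ * e₂ + e₁ * e₃ + e₂ * e₃ : ℤ) : ℚ) := by
      push_cast; rw [he₁, he₂, he₃, c1]; ring
    exact_mod_cast this
  · have : ((16 * W.b₆ : ℤ) : ℚ) = ((-(e₁ * e₂ * e₃) : ℤ) : ℚ) := by
      push_cast; rw [he₁, he₂, he₃, c0]; ring
    exact_mod_cast this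

/-- invariants in terms of the differences of the roots -/
theorem invariants (W : WeierstrassCurve ℤ) (e₁ e₂ e₃ : ℤ) (h2 : W.b₂ = -(e₁ + e₂ + e₃))
    (h4 : 8 * W.b₄ = e₁ * e₂ + e₁ * e₃ + e₂ * e₃) (h6 : 16 * W.b₆ = -(e₁ * e₂ * e₃)) :
    W.c₄ = (e₂ - e₁) ^ 2 + (e₂ - e₁) * (e₃ - e₂) + (e₃ - e₂) ^ 2 ∧
      256 * W.Δ = ((e₂ - e₁) * (e₃ - e₂) * ((e₂ - e₁) + (e₃ - e₂))) ^ 2 := by
  constructor
  · unfold WeierstrassCurve.c₄
    have : 24 * W.b₄ = 3 * (e₁ * e₂ + e₁ * e₃ + e₂ * e₃) := by linarith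
    rw [this, h2]
    ring
  · have h8 := W.b_relation
    have hd : W.Δ = -W.b₂ ^ 2 * W.b₈ - 8 * W.b₄ ^ 3 - 27 * W.b₆ ^ 2 + 9 * W.b₂ * W.b₄ * W.b₆ := rfl
    -- multiply by 256 and use the relations
    have e : 256 * W.Δ = -W.b₂ ^ 2 * (64 * (W.b₂ * W.b₆ - W.b₄ ^ 2)) - 4 * (8 * W.b₄) ^ 3
        - 27 * (16 * W.b₆) ^ 2 + 18 * W.b₂ * (8 * W.b₄) * (16 * W.b₆) := by
      rw [hd]
      linear_combination (-64 * W.b₂ ^ 2) * h8
    have e2 : 64 * (W.b₂ * W.b₆ - W.b₄ ^ 2) = 4 * W.b₂ * (16 * W.b₆) - (8 * W.b₄) ^ 2 := by ring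
    rw [e, e2, h4, h6, h2]
    ring

/-- structure of the 2-division points of a semistable curve with full 2-torsion -/
theorem semi_pair (W : WeierstrassCurve ℤ) (hΔ : W.Δ ≠ 0) (hc : IsCoprime W.c₄ W.Δ)
    (hf : Full W) :
    ∃ g u v : ℕ, (g = 1 ∨ g = 2) ∧ 0 < u ∧ 0 < v ∧ Nat.Coprime u v ∧
      W.c₄ = (g : ℤ) ^ 2 * (u ^ 2 + u * v + v ^ 2) ∧
      256 * W.Δ = (g : ℤ) ^ 6 * (u * v * (u + v)) ^ 2 := by
  obtain ⟨e₁, e₂, e₃, h2, h4, h6⟩ := full_int W hf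
  obtain ⟨hc4, hD⟩ := invariants W e₁ e₂ e₃ h2 h4 h6
  set x := e₂ - e₁ with hx
  set y := e₃ - e₂ with hy
  have hne : x * y * (x + y) ≠ 0 := by
    intro h0
    rw [h0] at hD
    apply hΔ
    have : 256 * W.Δ = 0 := by rw [hD]; norm_num
    omega
  have hx0 : x ≠ 0 := fun h => hne (by rw [h]; ring)
  have hy0 : y ≠ 0 := fun h => hne (by rw [h]; ring)
  have hxy0 : x + y ≠ 0 := fun h => hne (by rw [h]; ring)
  obtain ⟨u', v', hu', hv', hq, hp, -⟩ := exists_pos_pair x y hx0 hy0 hxy0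
  set g := Nat.gcd u' v' with hg
  have hg0 : 0 < g := Nat.gcd_pos_of_pos_left _ hu'
  obtain ⟨u, hu⟩ : g ∣ u' := Nat.gcd_dvd_left _ _
  obtain ⟨v, hv⟩ : g ∣ v' := Nat.gcd_dvd_right _ _
  have hcop : Nat.Coprime u v := by
    have := Nat.coprime_div_gcd_div_gcd (m := u') (n := v') hg0
    rw [← hg, hu, hv, Nat.mul_div_cancel_left _ hg0, Nat.mul_div_cancel_left _ hg0] at this
    exact this
  have hu0 : 0 < u := Nat.pos_of_ne_zero (fun h => by rw [h, mul_zero] at hu; omega)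
  have hv0 : 0 < v := Nat.pos_of_ne_zero (fun h => by rw [h, mul_zero] at hv; omega)
  have E4 : W.c₄ = (g : ℤ) ^ 2 * (u ^ 2 + u * v + v ^ 2) := by
    rw [hc4, ← hq, hu, hv]; push_cast; ring
  have ED : 256 * W.Δ = (g : ℤ) ^ 6 * (u * v * (u + v)) ^ 2 := by
    rw [hD, ← hp, hu, hv]; push_cast; ring
  -- u v (u+v) is even
  have heven : (2 : ℤ) ∣ (u : ℤ) * v * (u + v) := by
    rcases Int.even_or_odd (u : ℤ) with h | h
    · exact (h.two_dvd.mul_right _).mul_right _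
    · rcases Int.even_or_odd (v : ℤ) with h' | h'
      · exact (h'.two_dvd.mul_left _).mul_right _
      · exact (h.add_odd h').two_dvd.mul_left _
  refine ⟨g, u, v, ?_, hu0, hv0, hcop, E4, ED⟩
  -- g ∣ 2 : every odd prime and 4 are excluded
  have hno : ∀ p : ℕ, p.Prime → p ∣ g → p = 2 := by
    intro p hp hpg
    by_contra h2p
    have h1 : (p : ℤ) ∣ W.c₄ := by
      rw [E4]
      exact Dvd.dvd.mul_right (Dvd.dvd.pow (by exact_mod_cast hpg) (by norm_num)) _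
    have h3 : (p : ℤ) ∣ 256 * W.Δ := by
      rw [ED]
      exact Dvd.dvd.mul_right (Dvd.dvd.pow (by exact_mod_cast hpg) (by norm_num)) _
    have hpc : IsCoprime (p : ℤ) 256 := by
      have : Nat.Coprime p 256 := by
        have : (256 : ℕ) = 2 ^ 8 := by norm_num
        rw [this]
        exact Nat.Coprime.pow_right _ ((Nat.coprime_primes hp Nat.prime_two).mpr h2p)
      exact_mod_cast Nat.isCoprime_iff_coprime.mpr this
    have h4 : (p : ℤ) ∣ W.Δ := hpc.dvd_of_dvd_mul_left h3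
    have := hc.isUnit_of_dvd' h1 h4
    rw [Int.isUnit_iff] at this
    have := hp.two_le
    omega
  have h4g : ¬ 4 ∣ g := by
    intro h
    obtain ⟨k, hk⟩ := h
    have h1 : (2 : ℤ) ∣ W.c₄ := by
      rw [E4, hk]
      exact ⟨8 * k ^ 2 * (u ^ 2 + u * v + v ^ 2), by push_cast; ring⟩
    have h3 : (2 : ℤ) ∣ W.Δ := by
      obtain ⟨m, hm⟩ := heven
      rw [hm, hk] at ED
      refine ⟨32 * k ^ 6 * m ^ 2, ?_⟩
      have : 256 * W.Δ = 256 * (2 * (32 * (k : ℤ) ^ 6 * m ^ 2)) := by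
        rw [ED]; push_cast; ring
      exact mul_left_cancel₀ (by norm_num) this
    have := hc.isUnit_of_dvd' h1 h3
    rw [Int.isUnit_iff] at this
    omega
  -- conclude
  by_cases h1 : g = 1
  · exact Or.inl h1
  · right
    obtain ⟨p, hp, hpg⟩ := Nat.exists_prime_and_dvd h1
    have := hno p hp hpg
    subst this
    obtain ⟨k, hk⟩ := hpg
    by_cases hk1 : k = 1
    · rw [hk, hk1]
    · exfalso
      obtain ⟨q, hq1, hq2⟩ := Nat.exists_prime_and_dvd hk1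
      have hq3 := hno q hq1 (hk ▸ Dvd.dvd.mul_left hq2 2)
      subst hq3
      obtain ⟨m, hm⟩ := hq2
      exact h4g ⟨m, by rw [hk, hm]; ring⟩

end Pool.Agent.H925R.Szpiro
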