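import Pool.Agent.H925R.Szpiro.Pairs
import Pool.Agent.H925R.Szpiro.Semi

/-!
Short Weierstrass models `y² = x³ - a x - b` with full rational 2-torsion: arithmetic part.
-/

set_option autoImplicit false

namespace Pool.Agent.H925R.Szpiro

open Finset Pool.Agent.H328R2.ABC

/-- the discriminant of `x³ - a x - b` -/
def D (a b : ℤ) : ℤ := 4 * a ^ 3 - 27 * b ^ 2

/-- minimal model in the sense of the problem -/
def IsMin (a b : ℤ) : Prop :=
  D a b ≠ 0 ∧ ∀ (u : ℚ) (a' b' : ℤ), u ≠ 0 → (a' : ℚ) = u ^ 4 * a → (b' : ℚ) = u ^ 6 * b →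
    |D a b| ≤ |D a' b'|

/-- `x³ - a x - b` has three rational roots -/
def FullS (a b : ℤ) : Prop :=
  ∃ r₁ r₂ r₃ : ℚ, ∀ x : ℚ, x ^ 3 - a * x - b = (x - r₁) * (x - r₂) * (x - r₃)

/-- the prime-to-6 part of the conductor -/
def condS (a b : ℤ) : ℕ :=
  ∏ p ∈ (D a b).natAbs.primeFactors.filter (fun p => 5 ≤ p), if (p : ℤ) ∣ a then p ^ 2 else p

theorem fullS_int (a b : ℤ) (h : FullS a b) :
    ∃ e₁ e₂ e₃ : ℤ, e₁ + e₂ + e₃ = 0 ∧ a = -(e₁ * e₂ + e₁ * e₃ + e₂ * e₃) ∧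
      b = e₁ * e₂ * e₃ := by
  obtain ⟨r₁, r₂, r₃, hr⟩ := h
  have h0 := hr 0
  have h1 := hr 1
  have h2 := hr (-1)
  have c0 : (b : ℚ) = r₁ * r₂ * r₃ := by linear_combination -h0
  have c2 : r₁ + r₂ + r₃ = 0 := by linear_combination (h1 + h2) / 2 - h0
  have c1 : (a : ℚ) = -(r₁ * r₂ + r₁ * r₃ + r₂ * r₃) := by
    linear_combination -(h1 - h2) / 2
  have key : ∀ r : ℚ, (r = r₁ ∨ r = r₂ ∨ r = r₃) → ∃ z : ℤ, (z : ℚ) = r := by
    intro r hh
    refine int_root 0 (-a) (-b) r ?_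
    push_cast
    have := hr r
    rcases hh with rfl | rfl | rfl <;> linear_combination this
  obtain ⟨e₁, he₁⟩ := key r₁ (by simp)
  obtain ⟨e₂, he₂⟩ := key r₂ (by simp)
  obtain ⟨e₃, he₃⟩ := key r₃ (by simp)
  refine ⟨e₁, e₂, e₃, ?_, ?_, ?_⟩
  · have : ((e₁ + e₂ + e₃ : ℤ) : ℚ) = ((0 : ℤ) : ℚ) := by
      push_cast; rw [he₁, he₂, he₃, c2]
    exact_mod_cast this
  · have : (a : ℚ) = ((-(e₁ * e₂ + e₁ * e₃ + e₂ * e₃) : ℤ) : ℚ) := by
      push_cast; rw [he₁, he₂, he₃, c1]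
    exact_mod_cast this
  · have : (b : ℚ) = ((e₁ * e₂ * e₃ : ℤ) : ℚ) := by
      push_cast; rw [he₁, he₂, he₃, c0]
    exact_mod_cast this

/-- in a minimal model the three roots have no common factor `m ≥ 2` with `m² ∣` all of them -/
theorem min_no_sq (a b : ℤ) (hmin : IsMin a b) (e₁ e₂ e₃ : ℤ)
    (ha : a = -(e₁ * e₂ + e₁ * e₃ + e₂ * e₃)) (hb : b = e₁ * e₂ * e₃) (m : ℕ) (hm : 2 ≤ m)
    (h1 : (m : ℤ) ^ 2 ∣ e₁) (h2 : (m : ℤ) ^ 2 ∣ e₂) (h3 : (m : ℤ) ^ 2 ∣ e₃) : False := by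
  obtain ⟨k₁, hk₁⟩ := h1
  obtain ⟨k₂, hk₂⟩ := h2
  obtain ⟨k₃, hk₃⟩ := h3
  have ha' : a = (m : ℤ) ^ 4 * -(k₁ * k₂ + k₁ * k₃ + k₂ * k₃) := by
    rw [ha, hk₁, hk₂, hk₃]; ring
  have hb' : b = (m : ℤ) ^ 6 * (k₁ * k₂ * k₃) := by
    rw [hb, hk₁, hk₂, hk₃]; ring
  have hm0 : (m : ℚ) ≠ 0 := by exact_mod_cast (by omega : m ≠ 0)
  have := hmin.2 ((m : ℚ)⁻¹) (-(k₁ * k₂ + k₁ * k₃ + k₂ * k₃)) (k₁ * k₂ * k₃) (inv_ne_zero hm0)
    (by rw [ha']; push_cast; field_simp) (by rw [hb']; push_cast; field_simp)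
  have hD : D a b = (m : ℤ) ^ 12 * D (-(k₁ * k₂ + k₁ * k₃ + k₂ * k₃)) (k₁ * k₂ * k₃) := by
    unfold D
    rw [ha', hb']
    ring
  set D' := D (-(k₁ * k₂ + k₁ * k₃ + k₂ * k₃)) (k₁ * k₂ * k₃) with hD'
  have hD0 : D' ≠ 0 := by
    intro h
    apply hmin.1
    rw [hD, h, mul_zero]
  have hpos : 0 < |D'| := abs_pos.mpr hD0
  rw [hD, abs_mul, abs_of_nonneg (by positivity : (0 : ℤ) ≤ (m : ℤ) ^ 12)] at this
  have hm12 : (2 : ℤ) ≤ (m : ℤ) ^ 12 := by
    have h2m : (2 : ℤ) ≤ m := by exact_mod_cast hm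
    calc (2 : ℤ) ≤ m := h2m
      _ = (m : ℤ) ^ 1 := (pow_one _).symm
      _ ≤ (m : ℤ) ^ 12 := pow_le_pow_right₀ (by linarith) (by norm_num)
  nlinarith

/-- the product of the primes `≥ 5` in a finite set -/
def big (S : Finset ℕ) : ℕ := ∏ p ∈ S.filter (fun p => 5 ≤ p), p

theorem big_pos (S : Finset ℕ) : 0 < big S := by
  unfold big
  exact prod_pos (fun p hp => by
    rw [mem_filter] at hp
    omega)

/-- structure theorem for minimal models with full 2-torsion -/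
theorem twist_pair (a b : ℤ) (hmin : IsMin a b) (hf : FullS a b) :
    ∃ i j g₁ g₂ u v : ℕ, i ≤ 1 ∧ j ≤ 2 ∧ 0 < g₁ ∧ 0 < g₂ ∧ 0 < u ∧ 0 < v ∧ Nat.Coprime u v ∧
      g₁ ∣ u * v * (u + v) ∧
      3 * a = ((2 ^ i * 3 ^ j * (g₁ * g₂) : ℕ) : ℤ) ^ 2 * (u ^ 2 + u * v + v ^ 2) ∧
      D a b = ((2 ^ i * 3 ^ j * (g₁ * g₂) : ℕ) : ℤ) ^ 6 * (u * v * (u + v)) ^ 2 ∧
      rad (u * v * (u + v)) * (g₁ * g₂) * g₂ ≤ 6 * condS a b := by
  classical
  obtain ⟨e₁, e₂, e₃, hs, ha, hb⟩ := fullS_int a b hf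
  set x := e₂ - e₁ with hx
  set y := e₃ - e₂ with hy
  have hDxy : D a b = (x * y * (x + y)) ^ 2 := by
    unfold D
    rw [ha, hb, hx, hy]
    have h3 : e₃ = -(e₁ + e₂) := by linarith
    rw [h3]
    ring
  have hne : x * y * (x + y) ≠ 0 := by
    intro h0
    rw [h0] at hDxy
    exact hmin.1 (by rw [hDxy]; norm_num)
  have hx0 : x ≠ 0 := fun h => hne (by rw [h]; ring)
  have hy0 : y ≠ 0 := fun h => hne (by rw [h]; ring)
  have hxy0 : x + y ≠ 0 := fun h => hne (by rw [h]; ring)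
  obtain ⟨u', v', hu', hv', hq, hp, hdiv⟩ := exists_pos_pair x y hx0 hy0 hxy0
  set g := Nat.gcd u' v' with hg
  have hg0 : 0 < g := Nat.gcd_pos_of_pos_left _ hu'
  obtain ⟨u, hu⟩ : g ∣ u' := Nat.gcd_dvd_left _ _
  obtain ⟨v, hv⟩ : g ∣ v' := Nat.gcd_dvd_right _ _
  have hcop : Nat.Coprime u v := by
    have := Nat.coprime_div_gcd_div_gcd (m := u') (n := v') hg0
    rw [← hg, hu, hv, Nat.mul_div_cancel_left _ hg0, Nat.mul_div_cancel_left _ hg0] at this
    exact this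
  have hu0 : 0 < u := Nat.pos_of_ne_zero (fun h => by rw [h, mul_zero] at hu; omega)
  have hv0 : 0 < v := Nat.pos_of_ne_zero (fun h => by rw [h, mul_zero] at hv; omega)
  have h3a : 3 * a = (g : ℤ) ^ 2 * (u ^ 2 + u * v + v ^ 2) := by
    have h1 : (g : ℤ) ^ 2 * (u ^ 2 + u * v + v ^ 2) = x ^ 2 + x * y + y ^ 2 := by
      rw [← hq, hu, hv]; push_cast; ring
    rw [h1, ha, hx, hy]
    have h3 : e₃ = -(e₁ + e₂) := by linarith
    rw [h3]
    ring
  have hDg : D a b = (g : ℤ) ^ 6 * (u * v * (u + v)) ^ 2 := by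
    rw [hDxy, ← hp, hu, hv]; push_cast; ring
  -- divisibility of the roots
  have hroot : ∀ d : ℤ, d ∣ x → d ∣ y → d ∣ 3 * e₁ ∧ d ∣ 3 * e₂ ∧ d ∣ 3 * e₃ := by
    intro d h1 h2
    refine ⟨?_, ?_, ?_⟩
    · have : 3 * e₁ = -(2 * x + y) := by rw [hx, hy]; linarith
      rw [this]
      exact (dvd_add (h1.mul_left 2) h2).neg_right
    · have : 3 * e₂ = x - y := by rw [hx, hy]; linarith
      rw [this]
      exact dvd_sub h1 h2
    · have : 3 * e₃ = x + 2 * y := by rw [hx, hy]; linarith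
      rw [this]
      exact dvd_add h1 (h2.mul_left 2)
  have hgd : ∀ d : ℕ, d ∣ g → ((d : ℤ) ∣ 3 * e₁ ∧ (d : ℤ) ∣ 3 * e₂ ∧ (d : ℤ) ∣ 3 * e₃) := by
    intro d hd
    have h1 : (d : ℤ) ∣ (u' : ℤ) := by
      exact_mod_cast hd.trans (Nat.gcd_dvd_left _ _)
    have h2 : (d : ℤ) ∣ (v' : ℤ) := by
      exact_mod_cast hd.trans (Nat.gcd_dvd_right _ _)
    obtain ⟨h3, h4⟩ := hdiv d h1 h2
    exact hroot d h3 h4
  have hcan : ∀ d : ℤ, IsCoprime d 3 → ∀ e : ℤ, d ∣ 3 * e → d ∣ e := fun d hd e h =>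
    hd.dvd_of_dvd_mul_left h
  -- squares
  have hsq : ∀ p : ℕ, p.Prime → p ≠ 3 → ¬ p ^ 2 ∣ g := by
    intro p hp hp3 hd
    obtain ⟨h1, h2, h3⟩ := hgd _ hd
    have hc : IsCoprime (((p ^ 2 : ℕ)) : ℤ) 3 := by
      have : Nat.Coprime (p ^ 2) 3 :=
        Nat.Coprime.pow_left _ ((Nat.coprime_primes hp Nat.prime_three).mpr hp3)
      exact_mod_cast Nat.isCoprime_iff_coprime.mpr this
    have k1 := hcan _ hc _ h1
    have k2 := hcan _ hc _ h2
    have k3 := hcan _ hc _ h3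
    push_cast at k1 k2 k3
    exact min_no_sq a b hmin e₁ e₂ e₃ ha hb p hp.two_le k1 k2 k3
  have h27 : ¬ 27 ∣ g := by
    intro hd
    obtain ⟨h1, h2, h3⟩ := hgd _ hd
    have hc : ∀ e : ℤ, ((27 : ℕ) : ℤ) ∣ 3 * e → ((3 : ℕ) : ℤ) ^ 2 ∣ e := by
      intro e h
      obtain ⟨k, hk⟩ := h
      exact ⟨k, by push_cast at hk ⊢; linarith⟩
    exact min_no_sq a b hmin e₁ e₂ e₃ ha hb 3 (by norm_num) (hc _ h1) (hc _ h2) (hc _ h3)
  -- the factorization of `g`
  set n : ℕ := u * v * (u + v) with hn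
  have hn0 : n ≠ 0 := by
    rw [hn]
    have : 0 < u * v * (u + v) := by positivity
    omega
  set P5 := g.primeFactors.filter (fun p => 5 ≤ p) with hP5
  set N5 := n.primeFactors.filter (fun p => 5 ≤ p) with hN5
  have hsmall : ∀ p : ℕ, p.Prime → ¬ 5 ≤ p → p ∈ ({2, 3} : Finset ℕ) := by
    intro p hp h5
    have := hp.two_le
    have h4 : p ≠ 4 := by rintro rfl; norm_num at hp
    simp only [mem_insert, mem_singleton]
    omega
  have hgfac : g = 2 ^ g.factorization 2 * 3 ^ g.factorization 3 * ∏ p ∈ P5, p := by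
    have h1 : ∏ p ∈ g.primeFactors, p ^ g.factorization p = g :=
      Nat.prod_factorization_pow_eq_self hg0.ne'
    rw [← prod_filter_mul_prod_filter_not g.primeFactors (fun p => 5 ≤ p)] at h1
    have h2 : ∏ p ∈ g.primeFactors.filter (fun p => 5 ≤ p), p ^ g.factorization p =
        ∏ p ∈ P5, p := by
      refine prod_congr rfl (fun p hp => ?_)
      rw [mem_filter] at hp
      have hpp := Nat.prime_of_mem_primeFactors hp.1
      have hle : g.factorization p ≤ 1 := by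
        by_contra hcon
        push Not at hcon
        exact hsq p hpp (by omega) ((hpp.pow_dvd_iff_le_factorization hg0.ne').mpr hcon)
      have hge : 1 ≤ g.factorization p :=
        (hpp.dvd_iff_one_le_factorization hg0.ne').mp (Nat.dvd_of_mem_primeFactors hp.1)
      have : g.factorization p = 1 := by omega
      rw [this, pow_one]
    have h3 : ∏ p ∈ g.primeFactors.filter (fun p => ¬ 5 ≤ p), p ^ g.factorization p =
        ∏ p ∈ ({2, 3} : Finset ℕ), p ^ g.factorization p := by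
      refine prod_subset ?_ ?_
      · intro p hp
        rw [mem_filter] at hp
        exact hsmall p (Nat.prime_of_mem_primeFactors hp.1) hp.2
      · intro p hp hnot
        have h5 : ¬ 5 ≤ p := by
          simp only [mem_insert, mem_singleton] at hp
          omega
        rw [mem_filter, not_and'] at hnot
        have := hnot h5
        rw [← Nat.support_factorization, Finsupp.notMem_support_iff] at this
        rw [this, pow_zero]
    rw [h2, h3, prod_pair (by norm_num)] at h1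
    rw [mul_comm] at h1
    exact h1.symm
  have hi : g.factorization 2 ≤ 1 := by
    by_contra hcon
    push Not at hcon
    exact hsq 2 Nat.prime_two (by norm_num)
      ((Nat.prime_two.pow_dvd_iff_le_factorization hg0.ne').mpr hcon)
  have hj : g.factorization 3 ≤ 2 := by
    by_contra hcon
    push Not at hcon
    apply h27
    have := (Nat.prime_three.pow_dvd_iff_le_factorization (k := 3) hg0.ne').mpr hcon
    norm_num at this
    exact this
  set g₁ := ∏ p ∈ P5.filter (fun p => p ∣ n), p with hg₁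
  set g₂ := ∏ p ∈ P5.filter (fun p => ¬ p ∣ n), p with hg₂
  have hgg : g₁ * g₂ = ∏ p ∈ P5, p := prod_filter_mul_prod_filter_not _ _ _
  have hP5pos : ∀ p ∈ P5, 0 < p := fun p hp => by
    rw [hP5, mem_filter] at hp
    omega
  have hg₁0 : 0 < g₁ := prod_pos (fun p hp => hP5pos p (mem_filter.mp hp).1)
  have hg₂0 : 0 < g₂ := prod_pos (fun p hp => hP5pos p (mem_filter.mp hp).1)
  have hg₁n : g₁ ∣ n := by
    refine Finset.prod_primes_dvd n ?_ ?_
    · intro p hp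
      rw [mem_filter, hP5, mem_filter] at hp
      exact (Nat.prime_of_mem_primeFactors hp.1.1).prime
    · intro p hp
      exact (mem_filter.mp hp).2
  have hgeq : g = 2 ^ g.factorization 2 * 3 ^ g.factorization 3 * (g₁ * g₂) := by
    rw [hgg]; exact hgfac
  refine ⟨g.factorization 2, g.factorization 3, g₁, g₂, u, v, hi, hj, hg₁0, hg₂0, hu0, hv0, hcop,
    hg₁n, ?_, ?_, ?_⟩
  · rw [← hgeq]; exact h3a
  · rw [← hgeq]; exact hDg
  -- the conductor
  have hpa : ∀ p ∈ P5, (p : ℤ) ∣ a := by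
    intro p hp
    rw [hP5, mem_filter] at hp
    have hpp := Nat.prime_of_mem_primeFactors hp.1
    obtain ⟨h1, h2, h3⟩ := hgd p (Nat.dvd_of_mem_primeFactors hp.1)
    have hc : IsCoprime (p : ℤ) 3 := by
      have : Nat.Coprime p 3 := (Nat.coprime_primes hpp Nat.prime_three).mpr (by omega)
      exact_mod_cast Nat.isCoprime_iff_coprime.mpr this
    have k1 := hcan _ hc _ h1
    have k2 := hcan _ hc _ h2
    rw [ha]
    refine (dvd_add (dvd_add ?_ ?_) ?_).neg_right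
    · exact k1.mul_right _
    · exact k1.mul_right _
    · exact k2.mul_right _
  have hD0 : (D a b).natAbs ≠ 0 := Int.natAbs_ne_zero.mpr hmin.1
  set S := P5 ∪ N5 with hS
  have hSsub : S ⊆ (D a b).natAbs.primeFactors.filter (fun p => 5 ≤ p) := by
    intro p hp
    rw [hS, mem_union, hP5, hN5, mem_filter, mem_filter] at hp
    rw [mem_filter]
    have hdvd : ∀ q : ℕ, (q : ℤ) ∣ D a b → q ∣ (D a b).natAbs := fun q hq =>
      Int.natCast_dvd.mp hq
    rcases hp with ⟨h1, h2⟩ | ⟨h1, h2⟩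
    · refine ⟨Nat.mem_primeFactors.mpr ⟨Nat.prime_of_mem_primeFactors h1, hdvd p ?_, hD0⟩, h2⟩
      rw [hDg]
      exact Dvd.dvd.mul_right (Dvd.dvd.pow
        (by exact_mod_cast Nat.dvd_of_mem_primeFactors h1) (by norm_num)) _
    · refine ⟨Nat.mem_primeFactors.mpr ⟨Nat.prime_of_mem_primeFactors h1, hdvd p ?_, hD0⟩, h2⟩
      rw [hDg]
      refine Dvd.dvd.mul_left (Dvd.dvd.pow ?_ (by norm_num)) _
      have h3 := Nat.dvd_of_mem_primeFactors h1
      rw [hn] at h3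
      exact_mod_cast h3
  have hw1 : ∀ p ∈ (D a b).natAbs.primeFactors.filter (fun p => 5 ≤ p),
      1 ≤ (if (p : ℤ) ∣ a then p ^ 2 else p) := by
    intro p hp
    have h5 := (mem_filter.mp hp).2
    split_ifs
    · exact Nat.one_le_pow _ _ (by omega)
    · omega
  have hc1 : ∏ p ∈ S, (if (p : ℤ) ∣ a then p ^ 2 else p) ≤ condS a b :=
    prod_le_prod_of_subset_of_one_le' hSsub (fun p hp _ => hw1 p hp)
  have hc2 : ∏ p ∈ S, (p * (if p ∈ P5 then p else 1)) ≤
      ∏ p ∈ S, (if (p : ℤ) ∣ a then p ^ 2 else p) := by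
    refine prod_le_prod' (fun p hp => ?_)
    have h5 : 5 ≤ p := (mem_filter.mp (hSsub hp)).2
    by_cases h : p ∈ P5
    · rw [if_pos h, if_pos (hpa p h), sq]
    · rw [if_neg h, mul_one]
      split_ifs
      · exact Nat.le_self_pow (by norm_num) p
      · exact le_refl _
  have hc3 : ∏ p ∈ S, (p * (if p ∈ P5 then p else 1)) = (∏ p ∈ N5, p) * g₂ * (g₁ * g₂) := by
    rw [prod_mul_distrib, hgg]
    congr 1
    · have hU : S = N5 ∪ P5.filter (fun p => ¬ p ∣ n) := by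
        ext p
        simp only [hS, hP5, hN5, mem_union, mem_filter]
        constructor
        · rintro (h | h)
          · by_cases hpn : p ∣ n
            · left
              exact ⟨Nat.mem_primeFactors.mpr ⟨Nat.prime_of_mem_primeFactors h.1, hpn, hn0⟩, h.2⟩
            · exact Or.inr ⟨h, hpn⟩
          · exact Or.inl h
        · rintro (h | h)
          · exact Or.inr h
          · exact Or.inl h.1
      have hdis : Disjoint N5 (P5.filter (fun p => ¬ p ∣ n)) := by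
        rw [Finset.disjoint_left]
        intro p h1 h2
        exact (mem_filter.mp h2).2 (Nat.dvd_of_mem_primeFactors (mem_filter.mp h1).1)
      rw [hU, prod_union hdis]
    · rw [← prod_filter]
      congr 1
      ext p
      simp only [hS, mem_union, mem_filter]
      tauto
  have hr : rad n ≤ 6 * ∏ p ∈ N5, p := by
    unfold rad
    rw [← prod_filter_mul_prod_filter_not n.primeFactors (fun p => 5 ≤ p), mul_comm]
    refine Nat.mul_le_mul_right _ ?_
    have : ∏ p ∈ n.primeFactors.filter (fun p => ¬ 5 ≤ p), p ≤ ∏ p ∈ ({2, 3} : Finset ℕ), p := by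
      refine prod_le_prod_of_subset_of_one_le' ?_ ?_
      · intro p hp
        rw [mem_filter] at hp
        exact hsmall p (Nat.prime_of_mem_primeFactors hp.1) hp.2
      · intro p hp _
        simp only [mem_insert, mem_singleton] at hp
        omega
    rw [prod_pair (by norm_num)] at this
    omega
  calc rad n * (g₁ * g₂) * g₂ ≤ (6 * ∏ p ∈ N5, p) * (g₁ * g₂) * g₂ := by gcongr
    _ = 6 * ((∏ p ∈ N5, p) * g₂ * (g₁ * g₂)) := by ring
    _ = 6 * ∏ p ∈ S, (p * (if p ∈ P5 then p else 1)) := by rw [hc3]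
    _ ≤ 6 * condS a b := Nat.mul_le_mul_left _ (hc2.trans hc1)

end Pool.Agent.H925R.Szpiro
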