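import Pool.Agent.H328R2.ABC.Main

/-!
Counting coprime pairs with small radical (unordered form of `exceptional_ordered`), and the
reduction of three integers with sum zero to a positive triple `u + v = w`.
-/

set_option autoImplicit false

namespace Pool.Agent.H925R.Szpiro

open Finset Pool.Agent.H328R2.ABC

/-- a finite set of pairs is covered by its part below the diagonal and the swap of the rest -/
theorem card_le_two_halves (S : Finset (ℕ × ℕ)) (M : ℝ) (P : ℕ × ℕ → Prop)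
    (hP : ∀ t ∈ S, P t) (hsym : ∀ t, P t → P (t.2, t.1))
    (h : ∀ T : Finset (ℕ × ℕ), (∀ t ∈ T, P t ∧ t.1 ≤ t.2) → (T.card : ℝ) ≤ M) :
    (S.card : ℝ) ≤ 2 * M := by
  classical
  set S1 := S.filter (fun t => t.1 ≤ t.2) with hS1
  set S2 := S.filter (fun t => ¬ t.1 ≤ t.2) with hS2
  have hsplit : S.card = S1.card + S2.card := (card_filter_add_card_filter_not _).symm
  have h1 : (S1.card : ℝ) ≤ M := h S1 (fun t ht => by
    rw [hS1, mem_filter] at ht
    exact ⟨hP t ht.1, ht.2⟩)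
  have hinj : Set.InjOn (fun t : ℕ × ℕ => (t.2, t.1)) (S2 : Set (ℕ × ℕ)) := by
    rintro ⟨a, b⟩ _ ⟨a', b'⟩ _ he
    simp only [Prod.mk.injEq] at he
    exact Prod.ext he.2 he.1
  have h2 : (S2.card : ℝ) ≤ M := by
    rw [← card_image_of_injOn hinj]
    refine h _ ?_
    intro t ht
    obtain ⟨s, hs, rfl⟩ := mem_image.mp ht
    rw [hS2, mem_filter] at hs
    exact ⟨hsym s (hP s hs.1), by simpa using (not_le.mp hs.2).le⟩
  rw [hsplit]
  push_cast
  linarith

theorem exc_pairs (B lam ε : ℝ) (hε : 0 < ε) :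
    ∃ C : ℝ, 0 < C ∧ ∀ X : ℕ, 1 ≤ X → ∀ S : Finset (ℕ × ℕ),
      (∀ t ∈ S, 0 < t.1 ∧ 0 < t.2 ∧ Nat.Coprime t.1 t.2 ∧ t.1 + t.2 ≤ X ∧
        (rad (t.1 * t.2 * (t.1 + t.2)) : ℝ) ≤ B * ((t.1 + t.2 : ℕ) : ℝ) ^ lam) →
      (S.card : ℝ) ≤ C * (X : ℝ) ^ (3 / 5 + max (lam - 1) 0 + ε) := by
  obtain ⟨C, hC, h⟩ := exceptional_ordered B lam ε hε
  refine ⟨2 * C, by positivity, fun X hX S hS => ?_⟩
  rw [mul_assoc]
  refine card_le_two_halves S _ (fun t => 0 < t.1 ∧ 0 < t.2 ∧ Nat.Coprime t.1 t.2 ∧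
    t.1 + t.2 ≤ X ∧ (rad (t.1 * t.2 * (t.1 + t.2)) : ℝ) ≤ B * ((t.1 + t.2 : ℕ) : ℝ) ^ lam)
    hS ?_ ?_
  · rintro ⟨a, b⟩ ⟨h1, h2, h3, h4, h5⟩
    simp only at h1 h2 h3 h4 h5 ⊢
    refine ⟨h2, h1, h3.symm, by omega, ?_⟩
    rw [mul_comm b a, add_comm b a]
    exact h5
  · intro T hT
    refine h X hX T (fun t ht => ?_)
    obtain ⟨⟨h1, h2, h3, h4, h5⟩, h6⟩ := hT t ht
    exact ⟨⟨h1, h6, h3, h4⟩, h5⟩

/-- three integers `x`, `y`, `x + y`, all nonzero, are up to sign a positive triple -/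
theorem exists_pos_pair (x y : ℤ) (hx : x ≠ 0) (hy : y ≠ 0) (hxy : x + y ≠ 0) :
    ∃ u v : ℕ, 0 < u ∧ 0 < v ∧
      (u : ℤ) ^ 2 + u * v + (v : ℤ) ^ 2 = x ^ 2 + x * y + y ^ 2 ∧
      ((u : ℤ) * v * (u + v)) ^ 2 = (x * y * (x + y)) ^ 2 ∧
      (∀ d : ℤ, d ∣ (u : ℤ) → d ∣ (v : ℤ) → d ∣ x ∧ d ∣ y) := by
  -- key: a sign `s` and a permutation
  rcases lt_or_gt_of_ne hx with h1 | h1 <;> rcases lt_or_gt_of_ne hy with h2 | h2 <;>
    rcases lt_or_gt_of_ne hxy with h3 | h3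
  · refine ⟨(-x).toNat, (-y).toNat, by omega, by omega, ?_, ?_, ?_⟩
    · rw [Int.toNat_of_nonneg (by omega), Int.toNat_of_nonneg (by omega)]; ring
    · rw [Int.toNat_of_nonneg (by omega), Int.toNat_of_nonneg (by omega)]; ring
    · intro d hd1 hd2
      rw [Int.toNat_of_nonneg (by omega)] at hd1 hd2
      exact ⟨by simpa using hd1, by simpa using hd2⟩
  · omega
  · -- x < 0 < y, x + y < 0 : u = y, v = -(x+y)
    refine ⟨y.toNat, (-(x + y)).toNat, by omega, by omega, ?_, ?_, ?_⟩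
    · rw [Int.toNat_of_nonneg (by omega), Int.toNat_of_nonneg (by omega)]; ring
    · rw [Int.toNat_of_nonneg (by omega), Int.toNat_of_nonneg (by omega)]; ring
    · intro d hd1 hd2
      rw [Int.toNat_of_nonneg (by omega)] at hd1 hd2
      have h4 : d ∣ x + y := (dvd_neg (a := d) (b := x + y)).mp hd2
      exact ⟨by simpa using dvd_sub h4 hd1, hd1⟩
  · -- x < 0 < y, 0 < x + y : u = -x, v = x + y
    refine ⟨(-x).toNat, (x + y).toNat, by omega, by omega, ?_, ?_, ?_⟩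
    · rw [Int.toNat_of_nonneg (by omega), Int.toNat_of_nonneg (by omega)]; ring
    · rw [Int.toNat_of_nonneg (by omega), Int.toNat_of_nonneg (by omega)]; ring
    · intro d hd1 hd2
      rw [Int.toNat_of_nonneg (by omega)] at hd1 hd2
      have h4 : d ∣ x := by simpa using hd1
      exact ⟨h4, by simpa using dvd_sub hd2 h4⟩
  · -- y < 0 < x, x + y < 0 : u = x, v = -(x+y)
    refine ⟨x.toNat, (-(x + y)).toNat, by omega, by omega, ?_, ?_, ?_⟩
    · rw [Int.toNat_of_nonneg (by omega), Int.toNat_of_nonneg (by omega)]; ring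
    · rw [Int.toNat_of_nonneg (by omega), Int.toNat_of_nonneg (by omega)]; ring
    · intro d hd1 hd2
      rw [Int.toNat_of_nonneg (by omega)] at hd1 hd2
      have h4 : d ∣ x + y := (dvd_neg (a := d) (b := x + y)).mp hd2
      exact ⟨hd1, by simpa using dvd_sub h4 hd1⟩
  · -- y < 0 < x, 0 < x + y : u = -y, v = x + y
    refine ⟨(-y).toNat, (x + y).toNat, by omega, by omega, ?_, ?_, ?_⟩
    · rw [Int.toNat_of_nonneg (by omega), Int.toNat_of_nonneg (by omega)]; ring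
    · rw [Int.toNat_of_nonneg (by omega), Int.toNat_of_nonneg (by omega)]; ring
    · intro d hd1 hd2
      rw [Int.toNat_of_nonneg (by omega)] at hd1 hd2
      have h4 : d ∣ y := by simpa using hd1
      exact ⟨by simpa using dvd_sub hd2 h4, h4⟩
  · omega
  · refine ⟨x.toNat, y.toNat, by omega, by omega, ?_, ?_, ?_⟩
    · rw [Int.toNat_of_nonneg (by omega), Int.toNat_of_nonneg (by omega)]
    · rw [Int.toNat_of_nonneg (by omega), Int.toNat_of_nonneg (by omega)]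
    · intro d hd1 hd2
      rw [Int.toNat_of_nonneg (by omega)] at hd1 hd2
      exact ⟨hd1, hd2⟩

end Pool.Agent.H925R.Szpiro
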